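import Pool.Agent.R100.FC.Bridge
import Pool.Agent.R100.FC.B1
import Pool.Agent.R100.FC.B2
import Pool.Agent.R100.FC.B3
import Pool.Agent.R100.FC.C1
import Pool.Agent.R100.FC.C2
import Pool.Agent.R100.FC.C3h
import Pool.Agent.R100.FC.C3a
import Pool.Agent.R100.FC.C3b
import Pool.Agent.R100.FC.C3c
import Pool.Agent.R100.FC.C4f
import Pool.Agent.R100.FC.C4a
import Pool.Agent.R100.FC.C4b
import Pool.Agent.R100.FC.C6

/-!
# Infinite flexible catalysis gives nothing beyond standard catalysis

`Cat_LOCC^(f) = Cat_LOCC`: every pair of pure bipartite states which is flexibly catalysable by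
some (possibly infinite) set of catalysts is catalysable by one fixed catalyst.
-/

set_option autoImplicit false

namespace Pool.Agent.Results.MP_261b1b_mp.FlexibleCatalysis

open R100FC

/-- `Cat_LOCC^(f) = Cat_LOCC`. -/
theorem result : CatFlexibleLOCC = CatLOCC :=
  final (core sB1 sB2 sB3 sC1 sC2 sC3h sC3a sC3b sC3c sC4f sC4a sC4b sC6)

end Pool.Agent.Results.MP_261b1b_mp.FlexibleCatalysis
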